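import Mathlib

/-!
# MP_6afee3_an: a weak*-closed ideal of a measure algebra that is not finitely generated

`G = {1,-1}^ℕ`, and `J` is the ideal of all measures whose Fourier transform vanishes off the
set of Rademacher characters. By means of Riesz products the Fourier coefficients of elements
of `J` are square summable, so tend to `0`, whence `J` is not finitely generated.
-/

open Filter Topology MeasureTheory

namespace Pool.Agent.Results.MP_6afee3_an.WeakStarIdeal

noncomputable section

/-- The measure algebra of a compact group `G`, as the dual space of `C(G)`. -/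
abbrev M (G : Type) [TopologicalSpace G] [CompactSpace G] : Type := StrongDual ℂ C(G, ℂ)

section Conv

variable {G : Type} [Group G] [TopologicalSpace G] [IsTopologicalGroup G] [CompactSpace G]

omit [CompactSpace G] in
/-- The functions `y ↦ f (x * y)`, depending continuously on `x`. -/
def trans (f : C(G, ℂ)) : C(G, C(G, ℂ)) :=
  ContinuousMap.curry ⟨fun p : G × G => f (p.1 * p.2), by fun_prop⟩

omit [CompactSpace G] in
theorem trans_apply (f : C(G, ℂ)) (x y : G) : trans f x y = f (x * y) := rfl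

theorem norm_trans_le (f : C(G, ℂ)) (x : G) : ‖trans f x‖ ≤ ‖f‖ := by
  rw [ContinuousMap.norm_le _ (norm_nonneg f)]
  intro y
  exact f.norm_coe_le_norm (x * y)

/-- The function `x ↦ ∫ f (x * y) dν(y)`. -/
def smear (ν : M G) (f : C(G, ℂ)) : C(G, ℂ) := ⟨fun x => ν (trans f x), by fun_prop⟩

theorem smear_apply (ν : M G) (f : C(G, ℂ)) (x : G) : smear ν f x = ν (trans f x) := rfl

theorem smear_add (ν : M G) (f g : C(G, ℂ)) : smear ν (f + g) = smear ν f + smear ν g := by
  ext x
  rw [ContinuousMap.add_apply, smear_apply, smear_apply, smear_apply, ← map_add]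
  rfl

theorem smear_smul (ν : M G) (c : ℂ) (f : C(G, ℂ)) : smear ν (c • f) = c • smear ν f := by
  ext x
  rw [ContinuousMap.smul_apply, smear_apply, smear_apply, ← map_smul]
  rfl

theorem norm_smear_le (ν : M G) (f : C(G, ℂ)) : ‖smear ν f‖ ≤ ‖ν‖ * ‖f‖ := by
  rw [ContinuousMap.norm_le _ (by positivity)]
  intro x
  rw [smear_apply]
  refine (ν.le_opNorm _).trans ?_
  exact mul_le_mul_of_nonneg_left (norm_trans_le f x) (norm_nonneg _)

/-- Convolution of measures: `(μ * ν)(f) = ∫∫ f (x * y) dν(y) dμ(x)`. -/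
def conv (μ ν : M G) : M G :=
  LinearMap.mkContinuous
    { toFun := fun f => μ (smear ν f)
      map_add' := fun f g => by rw [smear_add, map_add]
      map_smul' := fun c f => by rw [smear_smul, map_smul, RingHom.id_apply] }
    (‖μ‖ * ‖ν‖) (fun f => by
      refine (μ.le_opNorm _).trans ?_
      rw [mul_assoc]
      exact mul_le_mul_of_nonneg_left (norm_smear_le ν f) (norm_nonneg _))

theorem conv_apply (μ ν : M G) (f : C(G, ℂ)) : conv μ ν f = μ (smear ν f) := rfl

/-- A left ideal of the measure algebra. -/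
def IsLeftIdeal (J : Submodule ℂ (M G)) : Prop := ∀ μ : M G, ∀ ν ∈ J, conv μ ν ∈ J

/-- `J = M(G) * μ₁ + ⋯ + M(G) * μₖ` for some `μ₁, …, μₖ ∈ J`. -/
def IsFinGen (J : Submodule ℂ (M G)) : Prop :=
  ∃ (k : ℕ) (μ : Fin k → M G), (∀ i, μ i ∈ J) ∧
    ∀ ν ∈ J, ∃ c : Fin k → M G, ν = ∑ i, conv (c i) (μ i)

/-- `J` is closed in the weak* topology `σ(M(G), C(G))`. -/
def IsWeakStarClosed (J : Submodule ℂ (M G)) : Prop :=
  IsClosed {μ : WeakDual ℂ C(G, ℂ) | WeakDual.toStrongDual μ ∈ J}

end Conv

/-- The group `{1,-1}^ℕ`. -/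
abbrev G : Type := ℕ → ℤˣ

/-- The Rademacher functions. -/
def rad (n : ℕ) : C(G, ℂ) := ⟨fun x => ((x n : ℤ) : ℂ), by
  have h1 : Continuous (fun u : ℤˣ => (((u : ℤˣ) : ℤ) : ℂ)) := continuous_of_discreteTopology
  exact h1.comp (continuous_apply n)⟩

theorem rad_apply (n : ℕ) (x : G) : rad n x = ((x n : ℤ) : ℂ) := rfl

theorem rad_mul (n : ℕ) (x y : G) : rad n (x * y) = rad n x * rad n y := by
  simp [rad_apply]

theorem rad_sq (n : ℕ) (x : G) : rad n x = 1 ∨ rad n x = -1 := by
  rw [rad_apply]
  rcases Int.units_eq_one_or (x n) with h | h <;> simp [h]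

/-- The Walsh characters. -/
def wal (S : Finset ℕ) : C(G, ℂ) := ∏ n ∈ S, rad n

theorem wal_apply (S : Finset ℕ) (x : G) : wal S x = ∏ n ∈ S, rad n x := by
  simp [wal, ContinuousMap.prod_apply]

theorem wal_mul (S : Finset ℕ) (x y : G) : wal S (x * y) = wal S x * wal S y := by
  simp only [wal_apply, rad_mul, Finset.prod_mul_distrib]

/-- The ideal of the measures with Fourier transform supported by the Rademacher characters. -/
def J : Submodule ℂ (M G) where
  carrier := {μ | ∀ S : Finset ℕ, S.card ≠ 1 → μ (wal S) = 0}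
  zero_mem' := fun S _ => rfl
  add_mem' := fun {μ ν} hμ hν S hS => by
    rw [add_apply, hμ S hS, hν S hS, add_zero]
  smul_mem' := fun c μ hμ S hS => by
    rw [smul_apply, hμ S hS, smul_zero]

theorem conv_char (μ ν : M G) (χ : C(G, ℂ)) (hχ : ∀ x y, χ (x * y) = χ x * χ y) :
    conv μ ν χ = μ χ * ν χ := by
  rw [conv_apply]
  have : smear ν χ = (ν χ) • χ := by
    ext x
    rw [smear_apply, ContinuousMap.smul_apply, smul_eq_mul]
    have h : trans χ x = χ x • χ := by
      ext y
      rw [trans_apply, hχ, ContinuousMap.smul_apply, smul_eq_mul]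
    rw [h, map_smul, smul_eq_mul, mul_comm]
  rw [this, map_smul, smul_eq_mul, mul_comm]

theorem isLeftIdeal_J : IsLeftIdeal J := by
  intro μ ν hν S hS
  rw [conv_char μ ν _ (wal_mul S), hν S hS, mul_zero]

theorem isWeakStarClosed_J : IsWeakStarClosed J := by
  have : {μ : WeakDual ℂ C(G, ℂ) | WeakDual.toStrongDual μ ∈ J}
      = ⋂ (S : Finset ℕ), ⋂ (_ : S.card ≠ 1), {μ : WeakDual ℂ C(G, ℂ) | μ (wal S) = 0} := by
    ext μ
    simp only [Set.mem_iInter]
    rfl
  unfold IsWeakStarClosed
  rw [this]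
  refine isClosed_iInter (fun S => isClosed_iInter (fun _ => ?_))
  exact isClosed_eq (WeakDual.eval_continuous _) continuous_const

/-- The Riesz product inequality. -/
theorem riesz (μ : M G) (hμ : μ ∈ J) (F : Finset ℕ) (t : ℕ → ℝ) :
    ‖∑ n ∈ F, (t n : ℂ) * μ (rad n)‖ ≤ ‖μ‖ * Real.exp ((∑ n ∈ F, t n ^ 2) / 2) := by
  set R : C(G, ℂ) := ∏ n ∈ F, (1 + ((t n : ℂ) * Complex.I) • rad n) with hR
  have h1 : μ R = Complex.I * ∑ n ∈ F, (t n : ℂ) * μ (rad n) := by
    rw [hR, Finset.prod_one_add, map_sum, Finset.mul_sum]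
    symm
    refine Finset.sum_of_injOn (fun n => ({n} : Finset ℕ)) ?_ ?_ ?_ ?_
    · intro a _ b _ h
      exact Finset.singleton_injective h
    · intro n hn
      simpa using hn
    · intro S _ hS'
      have hcard : S.card ≠ 1 := by
        intro h
        obtain ⟨n, rfl⟩ := Finset.card_eq_one.1 h
        apply hS'
        refine ⟨n, ?_, rfl⟩
        rename_i hS
        simpa using hS
      have h2 : (∏ i ∈ S, ((t i : ℂ) * Complex.I) • rad i)
          = (∏ i ∈ S, ((t i : ℂ) * Complex.I)) • wal S := by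
        ext x
        simp [wal, ContinuousMap.prod_apply, Finset.prod_mul_distrib]
      rw [h2, map_smul, hμ S hcard, smul_zero]
    · intro n _
      rw [Finset.prod_singleton, map_smul, smul_eq_mul]
      ring
  have h2 : ‖R‖ ≤ Real.exp ((∑ n ∈ F, t n ^ 2) / 2) := by
    rw [ContinuousMap.norm_le _ (Real.exp_pos _).le]
    intro x
    have h3 : R x = ∏ n ∈ F, (1 + ((t n : ℂ) * Complex.I) * rad n x) := by
      simp [hR, ContinuousMap.prod_apply]
    rw [h3, norm_prod, Finset.sum_div, Real.exp_sum]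
    refine Finset.prod_le_prod (fun _ _ => norm_nonneg _) (fun n _ => ?_)
    have h4 : ‖1 + ((t n : ℂ) * Complex.I) * rad n x‖ ^ 2 = 1 + t n ^ 2 := by
      rw [Complex.sq_norm, Complex.normSq_apply]
      rcases rad_sq n x with h | h <;> rw [h] <;> simp <;> ring
    have h5 : ‖1 + ((t n : ℂ) * Complex.I) * rad n x‖ ^ 2 ≤ (Real.exp (t n ^ 2 / 2)) ^ 2 := by
      rw [h4, ← Real.exp_nat_mul]
      have : ((2 : ℕ) : ℝ) * (t n ^ 2 / 2) = t n ^ 2 := by push_cast; ring
      rw [this, add_comm]
      exact Real.add_one_le_exp _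
    exact (pow_le_pow_iff_left₀ (norm_nonneg _) (Real.exp_pos _).le two_ne_zero).1 h5
  calc ‖∑ n ∈ F, (t n : ℂ) * μ (rad n)‖ = ‖μ R‖ := by
        rw [h1, norm_mul, Complex.norm_I, one_mul]
    _ ≤ ‖μ‖ * ‖R‖ := μ.le_opNorm _
    _ ≤ _ := mul_le_mul_of_nonneg_left h2 (norm_nonneg _)

/-- Square summability of a real sequence from a duality estimate. -/
theorem tendsto_of_riesz (a : ℕ → ℝ) (C : ℝ)
    (h : ∀ (F : Finset ℕ) (t : ℕ → ℝ),
      |∑ n ∈ F, t n * a n| ≤ C * Real.exp ((∑ n ∈ F, t n ^ 2) / 2)) :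
    Tendsto a atTop (𝓝 0) := by
  have hsum : Summable (fun n => a n ^ 2) := by
    refine summable_of_sum_le (c := (C * Real.exp (1 / 2)) ^ 2) (fun n => sq_nonneg _)
      (fun F => ?_)
    set A := Real.sqrt (∑ n ∈ F, a n ^ 2) with hA
    have hnn : 0 ≤ ∑ n ∈ F, a n ^ 2 := Finset.sum_nonneg (fun n _ => sq_nonneg _)
    have hAs : A ^ 2 = ∑ n ∈ F, a n ^ 2 := Real.sq_sqrt hnn
    rcases eq_or_ne A 0 with h0 | h0
    · rw [← hAs, h0, zero_pow two_ne_zero]; positivity
    · have h1 := h F (fun n => a n / A)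
      have h2 : ∑ n ∈ F, a n / A * a n = A := by
        have : ∑ n ∈ F, a n / A * a n = (∑ n ∈ F, a n ^ 2) / A := by
          rw [Finset.sum_div]
          refine Finset.sum_congr rfl (fun n _ => by ring)
        rw [this, ← hAs]
        field_simp
      have h3 : ∑ n ∈ F, (a n / A) ^ 2 = 1 := by
        have : ∑ n ∈ F, (a n / A) ^ 2 = (∑ n ∈ F, a n ^ 2) / A ^ 2 := by
          rw [Finset.sum_div]
          refine Finset.sum_congr rfl (fun n _ => by ring)
        rw [this, ← hAs]
        field_simp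
      rw [h2, h3] at h1
      rw [← hAs]
      exact pow_le_pow_left₀ (Real.sqrt_nonneg _) ((le_abs_self _).trans h1) 2
  have h2 := hsum.tendsto_atTop_zero
  have h3 : Tendsto (fun n => Real.sqrt (a n ^ 2)) atTop (𝓝 0) := by
    have := (Real.continuous_sqrt.tendsto 0).comp h2
    rw [Real.sqrt_zero] at this
    exact this
  simp only [Real.sqrt_sq_eq_abs] at h3
  exact (tendsto_zero_iff_abs_tendsto_zero _).2 h3

theorem tendsto_coeff (μ : M G) (hμ : μ ∈ J) : Tendsto (fun n => ‖μ (rad n)‖) atTop (𝓝 0) := by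
  have hre : Tendsto (fun n => (μ (rad n)).re) atTop (𝓝 0) := by
    refine tendsto_of_riesz _ ‖μ‖ (fun F t => ?_)
    have h := riesz μ hμ F t
    refine le_trans ?_ h
    have h2 := Complex.abs_re_le_norm (∑ n ∈ F, (t n : ℂ) * μ (rad n))
    simpa [Complex.re_sum] using h2
  have him : Tendsto (fun n => (μ (rad n)).im) atTop (𝓝 0) := by
    refine tendsto_of_riesz _ ‖μ‖ (fun F t => ?_)
    have h := riesz μ hμ F t
    refine le_trans ?_ h
    have h2 := Complex.abs_im_le_norm (∑ n ∈ F, (t n : ℂ) * μ (rad n))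
    simpa [Complex.im_sum] using h2
  have h3 : Tendsto (fun n => |(μ (rad n)).re| + |(μ (rad n)).im|) atTop (𝓝 0) := by
    simpa using hre.abs.add him.abs
  exact squeeze_zero (fun n => norm_nonneg _) (fun n => Complex.norm_le_abs_re_add_abs_im _) h3

instance : MeasurableSpace G := borel G

instance : BorelSpace G := ⟨rfl⟩

/-- Haar measure of total mass one on `G`. -/
def haarG : Measure G := Measure.haarMeasure ⊤

instance : IsProbabilityMeasure haarG := by
  refine ⟨?_⟩
  have := Measure.haarMeasure_self (G := G) (K₀ := ⊤)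
  rw [TopologicalSpace.PositiveCompacts.coe_top] at this
  exact this

instance : haarG.IsMulLeftInvariant := by
  unfold haarG; infer_instance

theorem integrable' (f : C(G, ℂ)) : Integrable f haarG :=
  f.continuous.integrable_of_hasCompactSupport (HasCompactSupport.of_compactSpace _)

/-- The measure with density `rad n`. -/
def nu (n : ℕ) : M G :=
  LinearMap.mkContinuous
    { toFun := fun f => ∫ x, (rad n * f) x ∂haarG
      map_add' := fun f g => by
        rw [← integral_add (integrable' _) (integrable' _)]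
        congr 1
        ext x
        simp [mul_add]
      map_smul' := fun c f => by
        rw [RingHom.id_apply, ← integral_smul]
        congr 1
        ext x
        simp } 1 (fun f => by
      have h := norm_integral_le_of_norm_le_const (μ := haarG) (f := rad n * f) (C := ‖f‖)
        (Filter.Eventually.of_forall (fun x => ?_))
      · simpa using h
      · rw [ContinuousMap.mul_apply, norm_mul]
        have : ‖rad n x‖ = 1 := by rcases rad_sq n x with h | h <;> simp [h]
        rw [this, one_mul]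
        exact f.norm_coe_le_norm x)

theorem nu_apply (n : ℕ) (f : C(G, ℂ)) : nu n f = ∫ x, (rad n * f) x ∂haarG := rfl

theorem norm_nu_le (n : ℕ) : ‖nu n‖ ≤ 1 := LinearMap.mkContinuous_norm_le _ zero_le_one _

theorem nu_zero (n : ℕ) (S : Finset ℕ) (hS : S ≠ {n}) : nu n (wal S) = 0 := by
  -- there is a point where the character `rad n * wal S` is `-1`
  obtain ⟨x, hx⟩ : ∃ x : G, rad n x * wal S x = -1 := by
    by_cases h : ∃ j ∈ S, j ≠ n
    · obtain ⟨j, hj, hjn⟩ := h
      refine ⟨Function.update 1 j (-1), ?_⟩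
      have h1 : rad n (Function.update 1 j (-1)) = 1 := by
        rw [rad_apply, Function.update_of_ne (Ne.symm hjn)]; simp
      rw [h1, one_mul, wal_apply, Finset.prod_eq_single j]
      · rw [rad_apply, Function.update_self]; simp
      · intro i _ hij
        rw [rad_apply, Function.update_of_ne hij]; simp
      · intro h; exact absurd hj h
    · push Not at h
      have hSe : S = ∅ := by
        by_contra hne
        obtain ⟨j, hj⟩ := Finset.nonempty_iff_ne_empty.2 hne
        apply hS
        ext i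
        rw [Finset.mem_singleton]
        constructor
        · exact h i
        · rintro rfl
          rw [← h j hj]; exact hj
      refine ⟨Function.update 1 n (-1), ?_⟩
      rw [hSe, wal_apply, Finset.prod_empty, mul_one, rad_apply, Function.update_self]
      simp
  have h1 := integral_mul_left_eq_self (μ := haarG) (fun y => (rad n * wal S) y) x
  have h2 : ∀ y, (rad n * wal S) (x * y) = - (rad n * wal S) y := by
    intro y
    rw [ContinuousMap.mul_apply, ContinuousMap.mul_apply, rad_mul, wal_mul]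
    linear_combination (rad n y * wal S y) * hx
  simp only [h2] at h1
  rw [integral_neg] at h1
  rw [nu_apply]
  have h3 : (2 : ℂ) * ∫ y, (rad n * wal S) y ∂haarG = 0 := by linear_combination -h1
  simpa using h3

theorem nu_self (n : ℕ) : nu n (rad n) = 1 := by
  rw [nu_apply]
  have : ∀ x, (rad n * rad n) x = 1 := by
    intro x
    rw [ContinuousMap.mul_apply]
    rcases rad_sq n x with h | h <;> simp [h]
  simp [this]

theorem wal_singleton (n : ℕ) : wal {n} = rad n := by simp [wal]

theorem nu_ne (n m : ℕ) (h : m ≠ n) : nu n (rad m) = 0 := by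
  rw [← wal_singleton]
  exact nu_zero n {m} (by simpa using h)

theorem not_isFinGen_J : ¬ IsFinGen J := by
  rintro ⟨k, μ, hμ, hgen⟩
  -- the coefficients of the generators tend to zero
  have h0 : Tendsto (fun n => ∑ i, ‖μ i (rad n)‖) atTop (𝓝 0) := by
    have := tendsto_finsetSum (Finset.univ : Finset (Fin k))
      (fun i _ => tendsto_coeff (μ i) (hμ i))
    simpa using this
  have h1 : ∀ j : ℕ, ∀ᶠ n in atTop, ∑ i, ‖μ i (rad n)‖ ≤ (1 / 4) ^ j := fun j =>
    (h0.eventually_lt_const (by positivity : (0 : ℝ) < (1 / 4) ^ j)).mono (fun _ h => h.le)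
  obtain ⟨φ, hφ, hφ2⟩ := extraction_forall_of_eventually h1
  -- the sum of a sparse series
  have hs : Summable (fun j : ℕ => ((1 / 2 : ℂ) ^ j) • nu (φ j)) := by
    refine Summable.of_norm_bounded (g := fun j : ℕ => (1 / 2 : ℝ) ^ j)
      (summable_geometric_of_lt_one (by norm_num) (by norm_num)) (fun j => ?_)
    rw [norm_smul, norm_pow]
    have h2 : ‖(1 / 2 : ℂ)‖ = 1 / 2 := by norm_num
    rw [h2]
    exact mul_le_of_le_one_right (by positivity) (norm_nu_le _)
  set ν : M G := ∑' j : ℕ, ((1 / 2 : ℂ) ^ j) • nu (φ j) with hν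
  have hev : ∀ f : C(G, ℂ), ν f = ∑' j : ℕ, ((1 / 2 : ℂ) ^ j) • nu (φ j) f := by
    intro f
    exact (ContinuousLinearMap.apply ℂ ℂ f).map_tsum hs
  have hνJ : ν ∈ J := by
    intro S hS
    rw [hev]
    have : ∀ j, ((1 / 2 : ℂ) ^ j) • nu (φ j) (wal S) = 0 := by
      intro j
      rw [nu_zero, smul_zero]
      rintro rfl
      exact hS (Finset.card_singleton _)
    simp only [this, tsum_zero]
  have hνr : ∀ j, ν (rad (φ j)) = (1 / 2 : ℂ) ^ j := by
    intro j
    rw [hev, tsum_eq_single j]
    · rw [nu_self, smul_eq_mul, mul_one]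
    · intro i hi
      rw [nu_ne, smul_zero]
      exact fun h => hi (hφ.injective h).symm
  obtain ⟨c, hc⟩ := hgen ν hνJ
  set C : ℝ := ∑ i, ‖c i‖ with hC
  have hrn : ∀ n, ‖rad n‖ ≤ 1 := by
    intro n
    rw [ContinuousMap.norm_le _ zero_le_one]
    intro x
    rcases rad_sq n x with h | h <;> simp [h]
  have hbound : ∀ n, ‖ν (rad n)‖ ≤ C * ∑ i, ‖μ i (rad n)‖ := by
    intro n
    have h2 : ν (rad n) = ∑ i, c i (rad n) * μ i (rad n) := by
      rw [hc, sum_apply]
      exact Finset.sum_congr rfl (fun i _ => conv_char _ _ _ (rad_mul n))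
    rw [h2, Finset.mul_sum]
    refine (norm_sum_le _ _).trans (Finset.sum_le_sum (fun i _ => ?_))
    rw [norm_mul]
    refine mul_le_mul_of_nonneg_right ?_ (norm_nonneg _)
    calc ‖c i (rad n)‖ ≤ ‖c i‖ * ‖rad n‖ := (c i).le_opNorm _
      _ ≤ ‖c i‖ * 1 := mul_le_mul_of_nonneg_left (hrn n) (norm_nonneg _)
      _ = ‖c i‖ := mul_one _
      _ ≤ C := Finset.single_le_sum (f := fun i => ‖c i‖) (fun i _ => norm_nonneg _)
        (Finset.mem_univ i)
  have hC0 : 0 ≤ C := Finset.sum_nonneg (fun i _ => norm_nonneg _)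
  have hfin : ∀ j : ℕ, (2 : ℝ) ^ j ≤ C := by
    intro j
    have h2 := (hbound (φ j)).trans (mul_le_mul_of_nonneg_left (hφ2 j) hC0)
    rw [hνr, norm_pow] at h2
    have h3 : ‖(1 / 2 : ℂ)‖ = 1 / 2 := by norm_num
    rw [h3] at h2
    have h4 : (1 / 4 : ℝ) ^ j = (1 / 2) ^ j * (1 / 2) ^ j := by rw [← mul_pow]; norm_num
    rw [h4, ← mul_assoc] at h2
    have h5 : (0 : ℝ) < (1 / 2) ^ j := by positivity
    have h6 : 1 ≤ C * (1 / 2) ^ j := by
      by_contra hcon
      push Not at hcon
      nlinarith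
    have h7 : (2 : ℝ) ^ j * (1 / 2) ^ j = 1 := by rw [← mul_pow]; norm_num
    nlinarith
  obtain ⟨j, hj⟩ := pow_unbounded_of_one_lt C (one_lt_two)
  exact absurd (hfin j) (not_le.2 hj)

/-- **MP_6afee3_an, Q1, answer yes.** There are a compact (metrizable, abelian) group `G` and a
left ideal `J` of the measure algebra of `G` that is weak*-closed and not finitely generated. -/
theorem result : ∃ (G : Type) (_ : CommGroup G) (_ : TopologicalSpace G)
    (_ : IsTopologicalGroup G) (_ : CompactSpace G) (_ : T2Space G) (J : Submodule ℂ (M G)),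
    IsLeftIdeal J ∧ IsWeakStarClosed J ∧ ¬ IsFinGen J :=
  ⟨G, inferInstance, inferInstance, inferInstance, inferInstance, inferInstance, J,
    isLeftIdeal_J, isWeakStarClosed_J, not_isFinGen_J⟩

end

end Pool.Agent.Results.MP_6afee3_an.WeakStarIdeal
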